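import Pool.Agent.Q98.BS.Main

/-!
The metric space of all contraction `C_0`-semigroups on a separable infinite dimensional complex
Hilbert space, with the metric of locally uniform weak operator convergence, is a Baire space.
-/

set_option autoImplicit false

namespace Pool.Agent.Results.MP_eb8260_an.BaireSemigroups

open Pool.Agent.Q98.BS

/-- For every separable infinite dimensional complex Hilbert space `H` and every dense sequence `x`
of nonzero vectors, `semiDist x` is the distance of a metric space structure on the set `CSemi H`
of contraction semigroups, and this metric space is a Baire space. -/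
theorem result : ∀ (H : Type) [NormedAddCommGroup H] [InnerProductSpace ℂ H] [CompleteSpace H]
    [TopologicalSpace.SeparableSpace H], ¬ FiniteDimensional ℂ H →
    ∀ x : ℕ → H, (∀ j, x j ≠ 0) → DenseRange x →
    ∃ M : MetricSpace (CSemi H), (∀ T S, M.dist T S = semiDist x T S) ∧
      @BaireSpace (CSemi H) M.toPseudoMetricSpace.toUniformSpace.toTopologicalSpace :=
  fun _ _ _ _ _ hH x hx hd => ⟨metr x hx hd, fun _ _ => rfl, baire_main hH hx hd⟩

end Pool.Agent.Results.MP_eb8260_an.BaireSemigroups
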